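import Pool.Agent.Lib.Pa53cac.CleanRes

/-!
# Compatibility of semi-directed phylogenetic networks is decidable

Idea.  Take a network displaying the given restrictions, rooted for each restriction at a new leaf
on the edge of the root location.  Among all such families of rootings (with a common underlying
mixed graph) take one of minimal size.  A reticulation which survives in none of the restrictions
can be removed by replacing one of its two incoming edges by two pendant leaves, and a leaf
outside the required leaf sets can be removed unless its parent lies in a triangle.  This bounds
the size of a minimal family by a computable function of the input, and a finite search decides
compatibility.

A rooted network whose root lies in a triangle has a semi-directed topology with two parallel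
edges.  We treat both conventions: `Compatible` and `CompatibleRooted` keep such parallel edges (as
in the literal definitions), `CleanCompatible` and `CleanCompatibleRooted` consider semi-directed
networks without parallel edges and remove such parallel edges in the restriction process.
-/

namespace Pool.Agent.Results.MP_a53cac_lc.Decidable

open Pool.Agent.Lib.Pa53cac

/-- Compatibility of a finite family of semi-directed phylogenetic networks, each encoded as a
list of directed edges and a list of undirected edges, is decidable (in all four conventions). -/
theorem result :
    (ComputablePred fun C : List (List (Vtx × Vtx) × List (Vtx × Vtx)) =>
      Compatible (C.map toMG)) ∧
    (ComputablePred fun C : List (List (Vtx × Vtx) × List (Vtx × Vtx)) =>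
      CompatibleRooted (C.map toMG)) ∧
    (ComputablePred fun C : List (List (Vtx × Vtx) × List (Vtx × Vtx)) =>
      CleanCompatible (C.map toMG)) ∧
    (ComputablePred fun C : List (List (Vtx × Vtx) × List (Vtx × Vtx)) =>
      CleanCompatibleRooted (C.map toMG)) :=
  ⟨compatA_computable plainRes_isRes plain_resProg,
    compatB_computable plainRes_isRes plain_resProg,
    cleanCompatible_computable, cleanCompatibleRooted_computable⟩

end Pool.Agent.Results.MP_a53cac_lc.Decidable
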